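import Pool.Agent.PST.StmtsUC

/-!
# Squad PST, block UC, row QTF (helper39): the form of the quotient
-/

open scoped BigOperators TensorProduct PowerSeries

noncomputable section

namespace Pool.Agent.PST.UC.H39

open Pool.Agent.PSS

variable {V M : Type} [CommGroup V] [AddCommMonoid M]

/-- sum over the cosets -/
theorem fib [Fintype V] (N : Subgroup V) [Fintype N] [Fintype (V ⧸ N)] (f : V → M) :
    ∑ v, f v = ∑ q : V ⧸ N, ∑ n : N, f (q.out * (n : V)⁻¹) := by
  rw [← Fintype.sum_prod_type' (f := fun (q : V ⧸ N) (n : N) => f (q.out * (n : V)⁻¹))]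
  symm
  refine Fintype.sum_bijective (fun p : (V ⧸ N) × N => p.1.out * (p.2 : V)⁻¹) ⟨?_, ?_⟩ _ _
    (fun p => rfl)
  · rintro ⟨q, n⟩ ⟨q', n'⟩ h
    have hq : ∀ (q : V ⧸ N) (n : N), ((q.out * (n : V)⁻¹ : V) : V ⧸ N) = q := by
      intro q n
      rw [QuotientGroup.mk_mul, QuotientGroup.out_eq',
        (QuotientGroup.eq_one_iff _).mpr (N.inv_mem n.2), mul_one]
    have h1 : q = q' := by
      have := congrArg (fun v : V => (v : V ⧸ N)) h
      simp only [hq] at this
      exact this
    subst h1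
    have h2 : (n : V)⁻¹ = (n' : V)⁻¹ := mul_left_cancel h
    have h3 : n = n' := Subtype.ext (inv_injective h2)
    rw [h3]
  · intro v
    have hm : v⁻¹ * ((v : V ⧸ N)).out ∈ N := by
      rw [← QuotientGroup.eq, QuotientGroup.out_eq']
    refine ⟨((v : V ⧸ N), ⟨_, hm⟩), ?_⟩
    simp

theorem qtf : QtfStmt := by
  intro R V A H K _ _ _ _ _ _ _ _ α N _ _ αH π lam x y hQ hF
  -- the form
  let L : A →ₗ[R] R := ∑ n : N, lam ∘ₗ (LinearMap.mulLeft R (α (n : V)))
  have hL : ∀ a, L a = ∑ n : N, lam (α n * a) := by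
    intro a
    simp [L, LinearMap.sum_apply]
  have hinv : ∀ (n' : N) (a : A), L (α n' * a) = L a := by
    intro n' a
    rw [hL, hL]
    refine Fintype.sum_equiv (Equiv.mulRight n') _ _ ?_
    intro n
    rw [← mul_assoc, ← map_mul]
    rfl
  have hker : ∀ a, π a = 0 → L a = 0 := by
    intro a ha
    rw [hQ.ker] at ha
    have hle : Aug R (α.comp N.subtype) ⊤ ≤ LinearMap.ker L := by
      refine Submodule.span_le.mpr ?_
      rintro z ⟨n, b, -, rfl⟩
      simp only [SetLike.mem_coe, LinearMap.mem_ker]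
      rw [sub_mul, one_mul, map_sub]
      have := hinv n b
      simp only [MonoidHom.coe_comp, Function.comp_apply, Subgroup.coe_subtype]
      rw [this, sub_self]
    exact hle ha
  have hsurj : Function.Surjective π.toLinearMap := hQ.surj
  let lamH : H →ₗ[R] R := ((LinearMap.ker π.toLinearMap).liftQ L (fun a ha => by
    rw [LinearMap.mem_ker] at ha ⊢
    exact hker a ha)) ∘ₗ (π.toLinearMap.quotKerEquivOfSurjective hsurj).symm.toLinearMap
  have hlam0 : ∀ a, lamH (π a) = L a := by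
    intro a
    have h1 : (π.toLinearMap.quotKerEquivOfSurjective hsurj).symm (π a) =
        Submodule.Quotient.mk a := by
      rw [LinearEquiv.symm_apply_eq]
      rfl
    simp only [lamH, LinearMap.coe_comp, Function.comp_apply, LinearEquiv.coe_coe]
    rw [h1]
    rfl
  have hlam : ∀ a, lamH (π a) = ∑ n : N, lam (α n * a) := fun a => by rw [hlam0, hL]
  have hq : ∀ (q : V ⧸ N) (n : N), ((q.out * (n : V)⁻¹ : V) : V ⧸ N) = q := by
    intro q n
    rw [QuotientGroup.mk_mul, QuotientGroup.out_eq',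
      (QuotientGroup.eq_one_iff _).mpr (N.inv_mem n.2), mul_one]
  have hqo : ∀ q : V ⧸ N, αH q = π (α q.out) := by
    intro q
    rw [← hQ.om, QuotientGroup.out_eq']
  have hqi : ∀ q : V ⧸ N, αH q⁻¹ = π (α q.out⁻¹) := by
    intro q
    rw [← hQ.om, QuotientGroup.mk_inv, QuotientGroup.out_eq']
  refine ⟨lamH, hlam, ⟨?_, ?_, ?_⟩⟩
  · intro a b
    obtain ⟨a, rfl⟩ := hQ.surj a
    obtain ⟨b, rfl⟩ := hQ.surj b
    rw [← map_mul, ← map_mul, hlam, hlam]
    refine Finset.sum_congr rfl fun n _ => ?_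
    rw [← mul_assoc, hF.sym, ← mul_assoc, ← mul_assoc, hQ.cen n n.2 b]
  · intro h
    obtain ⟨a, rfl⟩ := hQ.surj h
    conv_rhs => rw [← hF.e1 a]
    rw [map_sum]
    refine Finset.sum_congr rfl fun k _ => ?_
    rw [map_sum, fib N]
    refine Finset.sum_congr rfl fun q _ => ?_
    have e1 : lamH (αH q⁻¹ * π (y k) * π a) =
        ∑ n : N, lam (α (q.out * (n : V)⁻¹)⁻¹ * y k * a) := by
      rw [hqi, ← map_mul, ← map_mul, hlam]
      refine Finset.sum_congr rfl fun n _ => ?_
      congr 1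
      rw [← mul_assoc, ← mul_assoc, ← map_mul]
      congr 3
      rw [mul_inv, inv_inv, mul_comm]
    rw [e1, Finset.sum_smul]
    refine Finset.sum_congr rfl fun n _ => ?_
    rw [map_smul, map_mul π, ← hQ.om, hq]
  · intro h
    obtain ⟨a, rfl⟩ := hQ.surj h
    conv_rhs => rw [← hF.e2 a]
    rw [map_sum]
    refine Finset.sum_congr rfl fun k _ => ?_
    rw [map_sum, fib N]
    refine Finset.sum_congr rfl fun q _ => ?_
    have e1 : lamH (π a * (π (x k) * αH q)) =
        ∑ n : N, lam (a * (x k * α (q.out * (n : V)⁻¹))) := by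
      rw [hqo, ← map_mul, ← map_mul, hlam]
      refine Fintype.sum_equiv (Equiv.inv N) _ _ ?_
      intro n
      rw [hF.sym]
      congr 1
      simp only [Equiv.inv_apply, Subgroup.coe_inv, inv_inv, map_mul, mul_assoc]
    rw [e1, Finset.sum_smul]
    refine Finset.sum_congr rfl fun n _ => ?_
    rw [map_smul, map_mul π, ← hQ.om, QuotientGroup.mk_inv, hq]

end Pool.Agent.PST.UC.H39
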