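import Pool.Agent.PST.StmtsGV

/-! Squad PST (MP_6a3f1a_al), block GV, row ADW (helper39): the union is admissible. -/

set_option autoImplicit false

noncomputable section

namespace Pool.Agent.PST.GU.H39

open Pool.Agent.PSS

theorem adw (hSvi : SviStmt) (hSvq : SvqStmt) : AdwStmt := by
  intro K L ℓ hℓ hK hL
  refine ⟨?_, ?_, ?_, ?_⟩
  · rintro V _ E W (h | h | h)
    · exact hK.nt V E W h
    · exact h.2.1
    · obtain ⟨P, U, h⟩ := h
      intro hW
      have h1 := h.w1.ix
      rw [hW, Subgroup.relIndex_bot_left, Subgroup.card_bot] at h1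
      exact hℓ.ne_one h1.symm
  · rintro V _ E W (h | h | h)
    · exact hK.st V E W h
    · intro a _ w _
      rw [h.1]
      exact Subgroup.mem_top _
    · obtain ⟨P, U, h⟩ := h
      exact h.w1.st
  · rintro V V' _ _ E E' W π hπ (h | h | h)
    · exact Or.inl (hK.iso V V' E E' W π hπ h)
    · refine Or.inr (Or.inl ⟨?_, ?_, hL.iso V V' E E' π hπ h.2.2⟩)
      · rw [h.1]
        exact Subgroup.map_top_of_surjective _ hπ.sur
      · intro hb
        apply h.2.1
        rw [eq_bot_iff]
        intro w hw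
        have h1 : π w ∈ W.map π.toMonoidHom := ⟨w, hw, rfl⟩
        rw [hb, Subgroup.mem_bot] at h1
        rw [Subgroup.mem_bot]
        exact π.injective (h1.trans (map_one π).symm)
    · obtain ⟨P, U, h⟩ := h
      exact Or.inr (Or.inr ⟨_, _, hSvi L ℓ hL V V' E E' π hπ P W U h⟩)
  · rintro V V' _ _ _ _ E E' W π hp hE hc hπ (h | h | h) hker hne
    · obtain ⟨W', h'⟩ := hK.quo V V' E E' W π hp hE hc hπ h hker hne
      exact ⟨W', Or.inl h'⟩
    · exfalso
      obtain ⟨v, hv⟩ := hne
      obtain ⟨u, rfl⟩ := hπ.sur v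
      apply hv
      have h1 : u ∈ π.ker := by
        rw [hker, h.1]
        exact Subgroup.mem_top _
      exact h1
    · obtain ⟨P, U, h⟩ := h
      obtain ⟨W', h' | h'⟩ := hSvq L ℓ hL V V' E E' π hπ P W U h hker hne
      · exact ⟨W', Or.inr (Or.inl h')⟩
      · exact ⟨W', Or.inr (Or.inr h')⟩

end Pool.Agent.PST.GU.H39
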