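import Pool.Agent.PST.StmtsET2

/-!
# Squad PST, block ET, row LOC (helper39): the local case (assembly of part B)
-/

open scoped BigOperators TensorProduct

noncomputable section

namespace Pool.Agent.PST.ET.H39

open Pool.Agent.PFD.D2 (Cdv FibG)
open Pool.Agent.PFC (Fx BK cj bi tw PS Frm PMid)
open Pool.Agent.PSS (RF)

theorem q_smul {R F D H : Type} [CommRing R] [Field F] [Ring D] [Algebra R D] [Ring H]
    [Algebra F H] {c : Cdv R F} (f : FibG D H c) (r : R) (a : D) :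
    f.q (r • a) = c.κ r • f.q a := by
  rw [Algebra.smul_def, map_mul, f.sc, ← Algebra.smul_def]

theorem loc (hFvp : FvpStmt) (hCfd : CfdStmt) (hSub : SubStmt) (hTsf : TsfStmt)
    (hZsu : ZsuStmt) (hRdf : RdfStmt) (hRfp : RfpStmt) (hRfs : RfsStmt) (hCsi : CsiStmt)
    (hTau : TauStmt) (hTor : TorStmt) (hEps : EpsStmt) (hRtu : RtuStmt) (hUpr : UprStmt) :
    LocStmt := by
  classical
  intro ℓ r _ R F V E H Hs K _ _ _ _ _ _ _ _ _ _ _ _ _ _ _ _ _ c f φ α lam xx t T x y hV hnt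
    hvl hE hM hD hG hT
  obtain ⟨lamF, hlamF⟩ := hM.frm
  obtain ⟨lam', hlam'⟩ := hFvp ℓ F V H α lamF hV hlamF
  have hTrc : Trc α lam' := hCfd ℓ F V H α lam' _ hV hlam' hM.ps hM.spn
  obtain ⟨S, _, _, i, σ, cf, hi, hqi, hsv, hpw⟩ :=
    hSub ℓ r R F V H Hs c f α lam' lam xx t hvl hD hG hlam' hTrc
  obtain ⟨σ', hs1, hs2, hs3⟩ := hTsf R F V S c σ cf hsv
  obtain ⟨zS, hzS, hzSe⟩ := hZsu ℓ r R F V S c σ cf lam xx t σ' hvl hD hsv hpw hs2
  obtain ⟨lam0, hl0, hSF0⟩ := hRdf R F Hs H K c f T x y hT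
  have hnd0 : ∀ a, (∀ b, lam0 (a * b) = 0) → a = 0 := by
    intro a ha
    rw [← hSF0.e2 a]
    exact Finset.sum_eq_zero fun k _ => by rw [ha, zero_smul]
  obtain ⟨K0, _, x0, y0, hRF⟩ := hRfp F V E H φ α lam0 hM.fin hSF0.sym hnd0 hM.ps
  obtain ⟨x1, y1, hx1, hy1, hrel⟩ := hRfs R F V S H Hs K0 c f α i σ σ' cf T lam0 x0 y0 hsv hqi
    hs1 hs2 hs3 hT.sym hl0 hRF
  -- the Casimir trace
  have hcas := hCsi R Hs K (K0 × V) T x y (fun l => x1 l.1 * i (σ l.2))
    (fun l => i (σ' l.2) * y1 l.1) hT (fun a => by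
      rw [Fintype.sum_prod_type]
      exact hrel a)
  obtain ⟨z, hzdef⟩ : ∃ z, z = ∑ k, x1 k * i zS * y1 k := ⟨_, rfl⟩
  have hz : ∑ k, x k * y k = c.π ^ r • z := by
    calc ∑ k, x k * y k = ∑ k, x k * 1 * y k := by simp only [mul_one]
      _ = ∑ l : K0 × V, (x1 l.1 * i (σ l.2)) * 1 * (i (σ' l.2) * y1 l.1) := (hcas 1).symm
      _ = ∑ k, ∑ v, (x1 k * i (σ v)) * 1 * (i (σ' v) * y1 k) := by
        rw [Fintype.sum_prod_type]
      _ = ∑ k, x1 k * i (∑ v, σ v * σ' v) * y1 k := by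
        refine Finset.sum_congr rfl fun k _ => ?_
        rw [map_sum, Finset.mul_sum, Finset.sum_mul]
        refine Finset.sum_congr rfl fun v _ => ?_
        rw [map_mul, mul_one]
        simp only [mul_assoc]
      _ = c.π ^ r • z := by
        rw [hzSe, hzdef, Finset.smul_sum]
        refine Finset.sum_congr rfl fun k _ => ?_
        rw [map_smul, mul_smul_comm, smul_mul_assoc]
  -- central
  have hcen : ∀ a, z * a = a * z := by
    intro a
    have h1 := (hTau R Hs K T x y hT).1 1 a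
    simp only [mul_one] at h1
    rw [hz, mul_smul_comm, smul_mul_assoc] at h1
    have h2 : c.π ^ r • (z * a - a * z) = 0 := by
      rw [smul_sub, h1, sub_self]
    exact sub_eq_zero.1 ((hTor R F Hs c).1 r _ h2)
  -- unit
  obtain ⟨he1, -, hem, -⟩ := hEps R F V S c σ cf (fun _ => 0) hsv (fun _ _ => by simp)
  have hez : eps c cf zS ≠ 0 := by
    obtain ⟨w, hw, -⟩ := isUnit_iff_exists.1 hzS
    intro h0
    have h1 := hem zS w
    rw [hw, he1, h0, zero_mul] at h1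
    exact one_ne_zero h1
  have hqz : f.q z = ∑ k, x0 k * (∑ v, c.κ (cf v zS) • α v) * y0 k := by
    have h1 : f.q (i zS) = ∑ v, c.κ (cf v zS) • α v := by
      conv_lhs => rw [← hsv.b1 zS]
      rw [map_sum, map_sum]
      refine Finset.sum_congr rfl fun v _ => ?_
      rw [map_smul i, q_smul, hqi]
    rw [hzdef, map_sum]
    refine Finset.sum_congr rfl fun k _ => ?_
    rw [map_mul, map_mul, hx1, hy1, h1]
  have hu : IsUnit (f.q z) := by
    rw [hqz]
    exact hRtu ℓ F V E H K0 φ α lam0 x0 y0 hV hnt hE hM hRF _ hez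
  obtain ⟨w0, hw1, hw2⟩ := isUnit_iff_exists.1 hu
  obtain ⟨w, rfl⟩ := f.surj w0
  obtain ⟨d, hd⟩ := f.ker (z * w - 1) (by rw [map_sub, map_mul, map_one, hw1, sub_self])
  obtain ⟨d', hd'⟩ := f.ker (w * z - 1) (by rw [map_sub, map_mul, map_one, hw2, sub_self])
  refine ⟨z, hUpr R F Hs c z w d d' ?_ ?_, hcen, hz⟩
  · rw [← hd]; abel
  · rw [← hd']; abel

end Pool.Agent.PST.ET.H39
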