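import Pool.Agent.PST.StmtsET3

/-!
# Squad PST, block ET, row TWZ (helper39): the centre of the matrix algebra
-/

noncomputable section

namespace Pool.Agent.PST.ET.H39

theorem scal {n : ℕ} {D : Type} [Ring D] (z : Matrix (Fin n) (Fin n) D)
    (hz : ∀ a, z * a = a * z) : ∃ z1 : D, Matrix.scalar (Fin n) z1 = z := by
  have h : z ∈ Set.range (Matrix.scalar (Fin n)) :=
    Matrix.mem_range_scalar_of_commute_single (fun i j _ => (hz _).symm)
  exact h

theorem twz : TwzStmt := by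
  intro n D _ hn z hu hz
  have : Nonempty (Fin n) := ⟨⟨0, hn⟩⟩
  obtain ⟨z1, rfl⟩ := scal z hz
  obtain ⟨w, hw1, hw2⟩ := isUnit_iff_exists.1 hu
  have hwc : ∀ a, w * a = a * w := by
    intro a
    calc w * a = w * a * (Matrix.scalar (Fin n) z1 * w) := by rw [hw1, mul_one]
      _ = w * (a * Matrix.scalar (Fin n) z1) * w := by simp only [mul_assoc]
      _ = w * (Matrix.scalar (Fin n) z1 * a) * w := by rw [hz a]
      _ = (w * Matrix.scalar (Fin n) z1) * a * w := by simp only [mul_assoc]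
      _ = a * w := by rw [hw2, one_mul]
  obtain ⟨w1, rfl⟩ := scal w hwc
  refine ⟨z1, isUnit_iff_exists.2 ⟨w1, ?_, ?_⟩, fun a => ?_, rfl⟩
  · refine Matrix.scalar_inj.1 (?_ : Matrix.scalar (Fin n) (z1 * w1) = Matrix.scalar (Fin n) 1)
    rw [map_mul, map_one, hw1]
  · refine Matrix.scalar_inj.1 (?_ : Matrix.scalar (Fin n) (w1 * z1) = Matrix.scalar (Fin n) 1)
    rw [map_mul, map_one, hw2]
  · refine Matrix.scalar_inj.1 (?_ : Matrix.scalar (Fin n) (z1 * a) =
      Matrix.scalar (Fin n) (a * z1))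
    rw [map_mul, map_mul, hz]

end Pool.Agent.PST.ET.H39
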